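import Mathlib

set_option autoImplicit false

namespace Pool.Agent.Results.MP_4cb54f_co.NoFewSymbols

/-- `(v, r, c)` is an admissible parameter set for `r × c` double (equivalently triple) arrays on
`v` symbols, in the non-trivial range `max {r, c} < v ≤ rc / 2`: with `e = rc / v` the replication
number, `v ∣ rc`, `(r - 1) ∣ c (e - 1)` and `(c - 1) ∣ r (e - 1)`. -/
def Admissible (v r c : ℕ) : Prop :=
  2 ≤ r ∧ 2 ≤ c ∧ max r c < v ∧ 2 * v ≤ r * c ∧ v ∣ r * c ∧
    (r - 1) ∣ c * (r * c / v - 1) ∧ (c - 1) ∣ r * (r * c / v - 1)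

/-- The arithmetic core, with `A = r - 1`, `B = c - 1`. -/
lemma core (A B e j : ℤ) (he : 2 ≤ e) (hA : e ≤ A) (hB : e ≤ B) (hj : 0 < j)
    (hid : A * B + e * j = (e - 1) * (A + B + 1))
    (h1 : A ∣ (B + 1) * (e - 1)) (h2 : B ∣ (A + 1) * (e - 1)) : False := by
  have hAj : A ∣ e * j := by
    have : e * j = (B + 1) * (e - 1) + A * ((e - 1) - B) := by linear_combination hid
    rw [this]
    exact dvd_add h1 (dvd_mul_right _ _)
  have hBj : B ∣ e * j := by
    have : e * j = (A + 1) * (e - 1) + B * ((e - 1) - A) := by linear_combination hid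
    rw [this]
    exact dvd_add h2 (dvd_mul_right _ _)
  have hApos : 0 < A := by linarith
  have hBpos : 0 < B := by linarith
  obtain ⟨a, ha⟩ : (Int.gcd A B : ℤ) ∣ A := Int.gcd_dvd_left ..
  obtain ⟨b, hb⟩ : (Int.gcd A B : ℤ) ∣ B := Int.gcd_dvd_right ..
  obtain ⟨d, hd⟩ : ∃ d : ℤ, d = (Int.gcd A B : ℤ) := ⟨_, rfl⟩
  rw [← hd] at ha hb
  have hdpos : 0 < d := by
    rw [hd]
    exact_mod_cast Int.gcd_pos_of_ne_zero_left B hApos.ne'
  have hcop : IsCoprime a b := by
    rw [Int.isCoprime_iff_gcd_eq_one]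
    have h3 : Int.gcd (d * a) (d * b) = d.natAbs * Int.gcd a b := Int.gcd_mul_left ..
    rw [← ha, ← hb] at h3
    have h4 : d.natAbs = Int.gcd A B := by rw [hd]; rfl
    rw [h4] at h3
    have h5 : 0 < Int.gcd A B := Int.gcd_pos_of_ne_zero_left B hApos.ne'
    exact (Nat.eq_of_mul_eq_mul_left h5 (by rw [mul_one]; exact h3)).symm
  -- `d * a * b ∣ e * j`
  obtain ⟨t, ht⟩ : d * (a * b) ∣ e * j := by
    obtain ⟨x, hx⟩ := hAj
    obtain ⟨y, hy⟩ := hBj
    have h6 : a * x = b * y := by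
      apply mul_left_cancel₀ hdpos.ne'
      rw [ha] at hx
      rw [hb] at hy
      linear_combination hy - hx
    obtain ⟨z, hz⟩ : b ∣ x := (hcop.symm).dvd_of_dvd_mul_left ⟨y, h6⟩
    exact ⟨z, by rw [hx, hz, ha]; ring⟩
  have hapos : 0 < a := by
    by_contra h
    have : d * a ≤ 0 := mul_nonpos_of_nonneg_of_nonpos hdpos.le (not_lt.1 h)
    linarith
  have hbpos : 0 < b := by
    by_contra h
    have : d * b ≤ 0 := mul_nonpos_of_nonneg_of_nonpos hdpos.le (not_lt.1 h)
    linarith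
  have htpos : 0 < t := by
    by_contra h
    have h7 : d * (a * b) * t ≤ 0 :=
      mul_nonpos_of_nonneg_of_nonpos (by positivity) (not_lt.1 h)
    have h8 : 0 < e * j := by positivity
    linarith
  have h9 : d * (a * b * (d + t)) = (e - 1) * (d * (a + b) + 1) := by
    have := hid
    rw [ht, ha, hb] at this
    linear_combination this
  -- `d ∣ e - 1`
  obtain ⟨ε, hε⟩ : d ∣ e - 1 := by
    have h10 : IsCoprime d (d * (a + b) + 1) := ⟨-(a + b), 1, by ring⟩
    exact h10.dvd_of_dvd_mul_right ⟨_, h9.symm⟩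
  have hεpos : 0 < ε := by
    by_contra h
    have : d * ε ≤ 0 := mul_nonpos_of_nonneg_of_nonpos hdpos.le (not_lt.1 h)
    linarith
  have hstar : a * b * (d + t) = ε * (d * (a + b) + 1) := by
    apply mul_left_cancel₀ hdpos.ne'
    rw [h9, hε]
    ring
  have haε : ε < a := by
    by_contra h
    have h11 : d * a ≤ d * ε := mul_le_mul_of_nonneg_left (not_lt.1 h) hdpos.le
    linarith
  have hbε : ε < b := by
    by_contra h
    have h11 : d * b ≤ d * ε := mul_le_mul_of_nonneg_left (not_lt.1 h) hdpos.le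
    linarith
  have hE : e = d * ε + 1 := by linarith
  have hEd : IsCoprime e d := ⟨1, -ε, by rw [hE]; ring⟩
  have hEε : IsCoprime e ε := ⟨1, -d, by rw [hE]; ring⟩
  obtain ⟨w, hw⟩ : e ∣ a * b * t := by
    have h10 : e ∣ d * (a * b * t) := ⟨j, by rw [ht]; ring⟩
    exact hEd.dvd_of_dvd_mul_left h10
  have hn : (a - ε) * (b - ε) = e * (a * b - ε * (a + b) + ε * w) := by
    have h12 : ε * (a * b * (d + t)) = ε * (ε * (d * (a + b) + 1)) := by rw [hstar]
    have h13 : e * w = a * b * t := hw.symm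
    rw [hE] at h13 ⊢
    linear_combination (-1 : ℤ) * h12 - ε * h13
  obtain ⟨n, hn'⟩ : ∃ n : ℤ, n = a * b - ε * (a + b) + ε * w := ⟨_, rfl⟩
  rw [← hn'] at hn
  have hepos : 0 < e := by linarith
  have hnpos : 0 < n := by
    by_contra h
    have h14 : e * n ≤ 0 := mul_nonpos_of_nonneg_of_nonpos hepos.le (not_lt.1 h)
    have h15 : 0 < (a - ε) * (b - ε) := mul_pos (by linarith) (by linarith)
    linarith
  have h16 : e * (n * (d + t)) = ε * (e - t * (a + b - ε)) := by
    have h17 : (a - ε) * (b - ε) * (d + t) = ε * (e - t * (a + b - ε)) := by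
      rw [hE]
      linear_combination hstar
    rw [← h17, hn]
    ring
  obtain ⟨s, hs⟩ : e ∣ t * (a + b - ε) := by
    have h10 : e ∣ ε * (t * (a + b - ε)) := ⟨ε - n * (d + t), by linear_combination h16⟩
    exact hEε.dvd_of_dvd_mul_left h10
  have hspos : 0 < s := by
    by_contra h
    have h18 : e * s ≤ 0 := mul_nonpos_of_nonneg_of_nonpos hepos.le (not_lt.1 h)
    have h19 : 0 < t * (a + b - ε) := mul_pos htpos (by linarith)
    linarith
  have h20 : n * (d + t) = ε * (1 - s) := by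
    apply mul_left_cancel₀ hepos.ne'
    rw [h16, hs]
    ring
  have h21 : 0 < n * (d + t) := mul_pos hnpos (by linarith)
  have h22 : ε * (1 - s) ≤ 0 := mul_nonpos_of_nonneg_of_nonpos hεpos.le (by linarith)
  linarith

/-- **No admissible parameter set has fewer than `r + c - 1` symbols.** -/
theorem result (v r c : ℕ) (h : Admissible v r c) : r + c - 1 ≤ v := by
  obtain ⟨hr, hc, hv, h2v, hdvd, hr1, hc1⟩ := h
  obtain ⟨e, he⟩ := hdvd
  have hv0 : 0 < v := by omega
  have hrv : r < v := lt_of_le_of_lt (le_max_left _ _) hv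
  have hcv : c < v := lt_of_le_of_lt (le_max_right _ _) hv
  have hdiv : r * c / v = e := by
    rw [he]
    exact Nat.mul_div_cancel_left e hv0
  rw [hdiv] at hr1 hc1
  have he2 : 2 ≤ e := by
    by_contra hlt
    have h1 : e ≤ 1 := by omega
    have h3 : v * e ≤ v * 1 := Nat.mul_le_mul_left v h1
    omega
  have her : e < r := by
    by_contra hge
    have h3 : v * r ≤ v * e := Nat.mul_le_mul_left v (not_lt.1 hge)
    have h4 : r * c < r * v := Nat.mul_lt_mul_of_pos_left hcv (by omega)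
    rw [mul_comm r v] at h4
    omega
  have hec : e < c := by
    by_contra hge
    have h3 : v * c ≤ v * e := Nat.mul_le_mul_left v (not_lt.1 hge)
    have h4 : r * c < v * c := Nat.mul_lt_mul_of_pos_right hrv (by omega)
    omega
  by_contra hlt
  refine core (r - 1) (c - 1) e ((r : ℤ) + c - 1 - v) (by exact_mod_cast he2) (by omega) (by omega)
    (by omega) ?_ ?_ ?_
  · have h5 : (r : ℤ) * c = v * e := by exact_mod_cast he
    linear_combination h5
  · have h6 : ((r - 1 : ℕ) : ℤ) ∣ ((c * (e - 1) : ℕ) : ℤ) := by exact_mod_cast hr1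
    rw [Nat.cast_mul, Nat.cast_sub (by omega), Nat.cast_sub (by omega)] at h6
    have h7 : ((c : ℤ) - 1 + 1) * ((e : ℤ) - 1) = (c : ℤ) * ((e : ℤ) - ((1 : ℕ) : ℤ)) := by
      push_cast; ring
    rw [h7]
    exact_mod_cast h6
  · have h6 : ((c - 1 : ℕ) : ℤ) ∣ ((r * (e - 1) : ℕ) : ℤ) := by exact_mod_cast hc1
    rw [Nat.cast_mul, Nat.cast_sub (by omega), Nat.cast_sub (by omega)] at h6
    have h7 : ((r : ℤ) - 1 + 1) * ((e : ℤ) - 1) = (r : ℤ) * ((e : ℤ) - ((1 : ℕ) : ℤ)) := by
      push_cast; ring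
    rw [h7]
    exact_mod_cast h6

end Pool.Agent.Results.MP_4cb54f_co.NoFewSymbols
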